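import Mathlib

/-!
# Project SQ: Sauer's question on quasiregular subgraphs

Layered random bipartite graphs (Pyber, Rödl and Szemerédi): every vertex `a` of the large class has one
random neighbour in each of the layers `i`; layer `i` has `n / q ^ (3 ^ i)` vertices.
-/

set_option autoImplicit false

namespace Pool.Agent.N437.SQ

open Finset

/-- the average degree in layer `i` -/
def D (q i : ℕ) : ℕ := q ^ (3 ^ i)

/-- the size of layer `i` -/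
def M (q L i : ℕ) : ℕ := q ^ (3 ^ L - 3 ^ i)

/-- the vertices of the layers -/
abbrev Lay (q L : ℕ) : Type := Σ i : Fin L, Fin (M q L i)

/-- a choice of one vertex in each layer -/
abbrev Psi (q L : ℕ) : Type := ∀ i : Fin L, Fin (M q L i)

/-- the number of the layers `i` in `I` in which the vertex chosen by `ψ` is in `B` -/
def hits {q L : ℕ} (I : Finset (Fin L)) (B : Finset (Lay q L)) (ψ : Psi q L) : ℕ :=
  (I.filter fun i => (⟨i, ψ i⟩ : Lay q L) ∈ B).card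

/-- the low layers for sets of size `s` -/
def low (q L s : ℕ) : Finset (Fin L) :=
  univ.filter fun i => D q i ^ 2 * s ≤ q ^ (3 ^ L)

/-- the choice of the random neighbours is good -/
def Good (q L C k : ℕ) (φ : Fin (q ^ (3 ^ L)) → Psi q L) : Prop :=
  ∀ (A : Finset (Fin (q ^ (3 ^ L)))) (B : Finset (Lay q L)), A.Nonempty → B.card ≤ 2 * C * A.card →
    ∃ a ∈ A, hits (low q L A.card) B (φ a) < k

/-- the layered graph -/
def LG (q L : ℕ) (φ : Fin (q ^ (3 ^ L)) → Psi q L) :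
    SimpleGraph (Fin (q ^ (3 ^ L)) ⊕ Lay q L) where
  Adj x y := (∃ a i, x = Sum.inl a ∧ y = Sum.inr ⟨i, φ a i⟩) ∨
    (∃ a i, y = Sum.inl a ∧ x = Sum.inr ⟨i, φ a i⟩)
  symm := ⟨fun _ _ h => h.symm⟩
  loopless := ⟨fun x h => by
    rcases h with ⟨a, i, h1, h2⟩ | ⟨a, i, h1, h2⟩ <;> simp [h1] at h2⟩

/-! ## Leaves -/

/-- F1 -/
def S_F1 : Prop :=
  ∀ {α Ω : Type} [Fintype α] [DecidableEq α] [Fintype Ω] [DecidableEq Ω] (A : Finset α)
    (G : Finset Ω),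
    ((univ : Finset (α → Ω)).filter fun φ => ∀ a ∈ A, φ a ∈ G).card =
      G.card ^ A.card * Fintype.card Ω ^ (Fintype.card α - A.card)

/-- F2 -/
def S_F2 : Prop :=
  ∀ (q L k : ℕ) (I : Finset (Fin L)) (B : Finset (Lay q L)) (r : ℝ), 1 ≤ q → 0 ≤ r →
    (∀ i ∈ I, ((B.filter fun b => b.1 = i).card : ℝ) ≤ r * M q L i) → r ≤ 1 →
    (((univ : Finset (Psi q L)).filter fun ψ => k ≤ hits I B ψ).card : ℝ) ≤
      Fintype.card (Psi q L) * (2 ^ I.card * r ^ k)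

/-- F3: the number of the subsets with at most `b` elements -/
def S_F3 : Prop :=
  ∀ {α : Type} [Fintype α] [DecidableEq α] (n s b : ℕ), 1 ≤ s → s ≤ n → Fintype.card α ≤ n →
    (((univ : Finset (Finset α)).filter fun B => B.card ≤ b).card : ℝ) ≤
      ((n : ℝ) / s) ^ b * Real.exp s

/-- F4: the numerical inequality -/
def S_F4 : Prop :=
  ∀ C : ℕ, 1 ≤ C → ∃ q₀ : ℕ, ∀ q L s : ℕ, q₀ ≤ q → 1 ≤ s → q ^ 2 * s ≤ q ^ (3 ^ L) →
    ((((q ^ (3 ^ L) : ℕ) : ℝ) / s) ^ s * Real.exp s) *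
      ((((q ^ (3 ^ L) : ℕ) : ℝ) / s) ^ (2 * C * s) * Real.exp s) *
      (2 ^ (low q L s).card * (2 * C * Real.sqrt ((s : ℝ) / ((q ^ (3 ^ L) : ℕ) : ℝ))) ^ (8 * C + 8)) ^ s ≤
    (1 / 4 : ℝ) ^ s

/-- F5: there is a good choice -/
def S_F5 : Prop :=
  ∀ C : ℕ, 1 ≤ C → ∃ q₀ : ℕ, ∀ q L : ℕ, q₀ ≤ q → 1 ≤ L →
    ∃ φ : Fin (q ^ (3 ^ L)) → Psi q L, Good q L C (8 * C + 8) φ

/-- F6A: the deterministic part for a set `S` of edges; `(a, i)` is the edge between `a` and the vertex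
`φ a i` of layer `i` -/
def S_F6A : Prop :=
  ∀ (q L C k : ℕ) (φ : Fin (q ^ (3 ^ L)) → Psi q L), 1 ≤ C → 1 ≤ k → 4 * C * k + 4 ≤ q →
    Good q L C k φ → ∀ S : Finset (Fin (q ^ (3 ^ L)) × Fin L), S.Nonempty →
      (∀ e ∈ S, k < (S.filter fun f => f.1 = e.1).card ∧
        (S.filter fun f => f.1 = e.1).card < C * k) →
      (∀ e ∈ S, k < (S.filter fun f => f.2 = e.2 ∧ φ f.1 e.2 = φ e.1 e.2).card ∧
        (S.filter fun f => f.2 = e.2 ∧ φ f.1 e.2 = φ e.1 e.2).card < C * k) → False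

/-- F6: the deterministic part -/
def S_F6 : Prop :=
  ∀ (q L C k : ℕ) (φ : Fin (q ^ (3 ^ L)) → Psi q L), 1 ≤ C → 1 ≤ k → 4 * C * k + 4 ≤ q →
    Good q L C k φ → ∀ H : (LG q L φ).Subgraph, H.verts.Nonempty →
      ¬ ∀ x ∈ H.verts, k < (H.neighborSet x).ncard ∧ (H.neighborSet x).ncard < C * k

/-- F7: the number of the vertices and edges -/
def S_F7 : Prop :=
  ∀ (q L : ℕ) (φ : Fin (q ^ (3 ^ L)) → Psi q L), 2 ≤ q →
    Fintype.card (Fin (q ^ (3 ^ L)) ⊕ Lay q L) ≤ 2 * q ^ (3 ^ L) ∧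
      (LG q L φ).edgeSet.ncard = L * q ^ (3 ^ L)

/-- F8: the theorem -/
def S_F8 : Prop :=
  ∀ C : ℝ, ∃ k : ℕ, 1 ≤ k ∧ ∀ F : ℝ, ∃ (n : ℕ) (G : SimpleGraph (Fin n)),
    1 ≤ n ∧ F * n ≤ (G.edgeSet.ncard : ℝ) ∧ ∀ H : G.Subgraph, H.verts.Nonempty →
      ¬ ∀ x ∈ H.verts, (k : ℝ) < (H.neighborSet x).ncard ∧ ((H.neighborSet x).ncard : ℝ) < C * k

end Pool.Agent.N437.SQ
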